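import Pool.Agent.W868.Fin

/-!
# `ℵ_α`-amalgamation is not absolute for transitive models of ZFC and GCH

The definitions are in `Pool.Agent.W868.Defs` and `Pool.Agent.W868.GDefs`.
-/

set_option autoImplicit false

namespace Pool.Agent.Results.MP_fbd45d_lc.NotAbsoluteGCH

open Pool.Agent.W868

/-- Let `α ≠ 0` be a countable ordinal. There are countable transitive models `V ⊆ W` of ZFC and
GCH with the same ordinals such that `α` is in `V` and is countable in `V` (and therefore in `W`),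
and a set `φ` in `V` that both models regard as a sentence of the infinitary logic, such that
`φ` has models of size `ℵ_α` in `V` and in `W`, and the models of `φ` of size `ℵ_α` do not
satisfy amalgamation in `V` and satisfy amalgamation in `W`. -/
theorem result (α : ZFSet.{0}) (hα : α.IsOrdinal) (hc : {x | x ∈ α}.Countable) (h0 : α ≠ ∅) :
    ∃ V W : Set ZFSet.{0}, V.Countable ∧ W.Countable ∧ IsZFC V ∧ IsZFC W ∧ GCH V ∧ GCH W ∧
      V ⊆ W ∧ (∀ x : ZFSet.{0}, x.IsOrdinal → (x ∈ V ↔ x ∈ W)) ∧ α ∈ V ∧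
      (∃ f ∈ V, IsInj α ZFSet.omega f) ∧ (∃ κ, IsAleph V α κ) ∧ (∃ κ, IsAleph W α κ) ∧
      ∃ φ ∈ V, IsSentence V φ ∧ IsSentence W φ ∧
        (∀ κ, IsAleph V α κ → (∃ D c, ModK V κ φ D c) ∧ ¬ AP V κ φ) ∧
        ∀ κ, IsAleph W α κ → (∃ D c, ModK W κ φ D c) ∧ AP W κ φ :=
  mainG α hα hc (by
    by_contra h
    exact h0 ((ZFSet.eq_empty α).2 fun β hβ => h ⟨β, hβ⟩))

end Pool.Agent.Results.MP_fbd45d_lc.NotAbsoluteGCH
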